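import Pool.Agent.K3h53.UG.Stm3

/-!
# Brick CLS3 of project UG3
-/

set_option autoImplicit false

namespace Pool.Agent.K3h58.UG

open Set Pool.Agent.K3h53.UG

theorem t_CLS3 : S_CLS3 := by
  classical
  intro s Ω f κ E g C hΩ hf hg hcov hsep w₀ hw₀ e₀ he₀ h0 w hw
  have hP : PreconnectedSpace Ω := isPreconnected_iff_preconnectedSpace.1 hΩ
  have hcl : ∀ e ∈ E, IsClosed {x : Ω | |f x - g e x| ≤ C} := by
    intro e he
    have h1 : Continuous fun x : Ω => f x := continuousOn_iff_continuous_domRestrict.1 hf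
    have h2 : Continuous fun x : Ω => g e x := continuousOn_iff_continuous_domRestrict.1 (hg e he)
    exact isClosed_le (h1.sub h2).abs continuous_const
  have hcompl : {x : Ω | |f x - g e₀ x| ≤ C}ᶜ = ⋃ e ∈ E.erase e₀, {x : Ω | |f x - g e x| ≤ C} := by
    ext x
    simp only [mem_compl_iff, mem_ofPred_eq, mem_iUnion, Finset.mem_erase, exists_prop]
    constructor
    · intro hx
      obtain ⟨e, he, hxe⟩ := hcov x x.2
      refine ⟨e, ⟨?_, he⟩, hxe⟩
      rintro rfl
      exact hx hxe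
    · rintro ⟨e, ⟨hne, he⟩, hxe⟩ hx
      have h1 := hsep x x.2 e he e₀ he₀ hne
      have h2 : |g e x - g e₀ x| ≤ |f x - g e x| + |f x - g e₀ x| := by
        have h3 : g e x - g e₀ x = (f x - g e₀ x) - (f x - g e x) := by ring
        rw [h3]
        have := abs_sub (f x - g e₀ x) (f x - g e x)
        linarith
      linarith
  have hop : IsOpen {x : Ω | |f x - g e₀ x| ≤ C} := by
    rw [← isClosed_compl_iff, hcompl]
    exact (Finset.finite_toSet _).isClosed_biUnion fun e he =>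
      hcl e (Finset.mem_of_mem_erase he)
  have hclopen : IsClopen {x : Ω | |f x - g e₀ x| ≤ C} := ⟨hcl e₀ he₀, hop⟩
  have huniv := hclopen.eq_univ ⟨⟨w₀, hw₀⟩, h0⟩
  have : (⟨w, hw⟩ : Ω) ∈ {x : Ω | |f x - g e₀ x| ≤ C} := by rw [huniv]; trivial
  exact this

end Pool.Agent.K3h58.UG
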